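import Pool.Agent.H430R3.LD.Defs

/-! Exact statements of the parts of S12181. -/

set_option autoImplicit false

namespace Pool.Agent.H430R3.LD

open Finset

/-- Task H (Hoeffding + union bound). -/
def TaskH : Prop := ∀ (U C J : Type) [Fintype U] [DecidableEq U] [Fintype C] [Fintype J]
  (f : C → J → U) (p δ : ℝ), 0 < p → 0 < δ →
  (∀ c u, ((Finset.univ.filter fun j => f c j = u).card : ℝ) ≤ p * Fintype.card J) →
  (Fintype.card C : ℝ) * (2 * Real.exp (-(δ ^ 2 / (2 * p)))) < 1 →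
  ∃ g : U → Bool, ∀ c, |∑ j, (if g (f c j) then (1 : ℝ) else -1)| ≤ δ * Fintype.card J

/-- Task C (few patterns). -/
def TaskC : Prop := ∀ n h k : ℕ, ∃ code : (Fin h → Fin n → Fin n → Fin n) → Finset ℕ →
  Fin (h + 1) → Fin k → Bool, ∀ x : ℕ → ℕ, (∀ i j, i < j → j < n → x i < x j) →
  ∃ M, ∀ P : Finset ℕ, P ⊆ range n → P.card = k → ∀ (j : Fin (h + 1)) (r : Fin k),
    code M P j r = (if (r : ℕ) + j + 1 < k then sg (en x P) j r else false)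

/-- Task B (anticoncentration). -/
def TaskB : Prop := ∃ m : ℕ, 0 < m ∧ ∃ k₀ : ℕ, ∀ k ≥ k₀, ∀ h : ℕ, m * h ≤ k → ∀ x : ℕ → ℕ,
  Seq x (2 * k) h → ∀ c : ℕ → ℕ → Bool, ∀ F : Finset (Finset ℕ),
  (∀ P ∈ F, P ⊆ range (2 * k) ∧ P.card = k ∧ Ty x h P c) →
  (F.card : ℝ) * (k : ℝ) ^ 5 ≤ (2 * k).choose k

end Pool.Agent.H430R3.LD
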