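import Pool.Agent.H430R3.LD.Rank

/-! The block contradiction for sets of positions. -/

set_option autoImplicit false
set_option linter.unusedSectionVars false

namespace Pool.Agent.H430R3.LD

open Finset

lemma ix_congr {P Q : Finset ℕ} {z p : ℕ} (h : ∀ a < z, a ∈ P ↔ a ∈ Q) (hp : p ≤ z) :
    ix P p = ix Q p := by
  simp only [ix]
  congr 1
  ext a
  simp only [mem_filter]
  constructor
  · rintro ⟨h1, h2⟩
    exact ⟨(h a (by omega)).1 h1, h2⟩
  · rintro ⟨h1, h2⟩
    exact ⟨(h a (by omega)).2 h1, h2⟩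

lemma card_itv_congr {P Q : Finset ℕ} {a b : ℕ} (h : ∀ p, a ≤ p → p < b → (p ∈ P ↔ p ∈ Q)) :
    itv P a b = itv Q a b := by
  ext p
  rw [mem_itv, mem_itv]
  constructor
  · rintro ⟨h1, h2, h3⟩
    exact ⟨(h p h2 h3).1 h1, h2, h3⟩
  · rintro ⟨h1, h2, h3⟩
    exact ⟨(h p h2 h3).2 h1, h2, h3⟩

lemma itv_drop {P : Finset ℕ} {a b : ℕ} (ha : a ∉ P) : itv P a b = itv P (a + 1) b := by
  ext p
  rw [mem_itv, mem_itv]
  constructor
  · rintro ⟨h1, h2, h3⟩
    refine ⟨h1, ?_, h3⟩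
    rcases Nat.lt_or_ge a p with h4 | h4
    · exact h4
    · have : p = a := by omega
      subst this
      exact absurd h1 ha
  · rintro ⟨h1, h2, h3⟩
    exact ⟨h1, by omega, h3⟩

lemma itv_cons {P : Finset ℕ} {a b : ℕ} (ha : a ∈ P) (hab : a < b) :
    (itv P a b).card = (itv P (a + 1) b).card + 1 := by
  have h1 : itv P a b = insert a (itv P (a + 1) b) := by
    ext p
    rw [mem_insert, mem_itv, mem_itv]
    constructor
    · rintro ⟨h1, h2, h3⟩
      rcases Nat.lt_or_ge a p with h4 | h4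
      · exact Or.inr ⟨h1, h4, h3⟩
      · left
        omega
    · rintro (rfl | ⟨h1, h2, h3⟩)
      · exact ⟨ha, le_rfl, hab⟩
      · exact ⟨h1, by omega, h3⟩
  rw [h1, card_insert_of_notMem]
  rw [mem_itv]
  omega

lemma ix_split' (P : Finset ℕ) {p q : ℕ} (h : p ≤ q) : ix P q = ix P p + (itv P p q).card :=
  ix_split P h

theorem block_contra {x : ℕ → ℕ} {n h D : ℕ} (hx : Seq x n h) {U1 U2 : Finset ℕ}
    (hU1 : U1 ⊆ range n) (hU2 : U2 ⊆ range n) (hP1 : PD (en x U1) U1.card h D)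
    (hP2 : PD (en x U2) U2.card h D) (hD : 0 < D) {z e : ℕ} (hze : z < e)
    (hz1 : z ∈ U1) (hz2 : z ∉ U2) (hpre : ∀ p < z, p ∈ U1 ↔ p ∈ U2)
    (hK : ∀ p, z < p → p < e → (p ∈ U1 ↔ p ∈ U2)) (hc1 : h + D + 4 ≤ ix U1 z)
    (hc2 : D + 2 ≤ (itv U1 (z + 1) e).card) (hc3 : h ≤ (itv (U1 ∩ U2) e n).card) (hen : e ≤ n) :
    False := by
  have hX1 : ∀ p < z, p ∈ U1 ↔ p ∈ U1 ∩ U2 := by
    intro p hp
    rw [mem_inter, ← hpre p hp]
    tauto
  have hX2 : ∀ p < z, p ∈ U2 ↔ p ∈ U1 ∩ U2 := by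
    intro p hp
    rw [mem_inter, hpre p hp]
    tauto
  have hzX : z ∉ U1 ∩ U2 := by
    rw [mem_inter]
    tauto
  have hXs : U1 ∩ U2 ⊆ range n := inter_subset_left.trans hU1
  set X := U1 ∩ U2 with hX
  have hi1 : ix U1 z = ix X z := ix_congr hX1 le_rfl
  have hi2 : ix U2 z = ix X z := ix_congr hX2 le_rfl
  have hXe : ix X e = ix X z + (itv X (z + 1) e).card := by
    rw [ix_split' X hze.le, itv_drop hzX]
  have hKX1 : ∀ p, z + 1 ≤ p → p < e → (p ∈ U1 ↔ p ∈ X) := by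
    intro p hp1 hp2
    rw [hX, mem_inter, ← hK p hp1 hp2]
    tauto
  have hKX2 : ∀ p, z + 1 ≤ p → p < e → (p ∈ U2 ↔ p ∈ X) := by
    intro p hp1 hp2
    rw [hX, mem_inter, hK p hp1 hp2]
    tauto
  have hb : itv U1 (z + 1) e = itv X (z + 1) e := card_itv_congr hKX1
  have hXn : ix X n ≤ X.card := card_filter_le _ _
  have hXn' := ix_split' X hen
  have hin : ∀ t < (itv X (z + 1) e).card, z < el X (ix X z + t) ∧ el X (ix X z + t) < e ∧
      el X (ix X z + t) ∈ X ∧ ix X (el X (ix X z + t)) = ix X z + t := by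
    intro t ht
    have h1 : ix X z + t < X.card := by omega
    have h2 := el_mem h1
    have h3 : z ≤ el X (ix X z + t) := le_el h1 (Nat.le_add_right _ _)
    have h4 : z ≠ el X (ix X z + t) := by
      intro h5
      rw [← h5] at h2
      exact hzX h2
    have h6 : el X (ix X z + t) < e := el_lt_of (by omega)
    exact ⟨by omega, h6, h2, ix_el h1⟩
  refine per_contra (u1 := en x U1) (u2 := en x U2) (s1 := U1.card) (s2 := U2.card) (h := h)
    (D := D) (ρ1 := fun a => ix U1 (el X a)) (ρ2 := fun a => ix U2 (el X a)) (sX := X.card)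
    (ρ := ix X z) (b := (itv X (z + 1) e).card) (en_inc hx.1 hU1) (en_inc hx.1 hU2)
    (en_bd hx.2 hU1) hP1 hP2 hD ?_ ?_ ?_ ?_ ?_ ?_ ?_ ?_ ?_ ?_ ?_ ?_
  · intro a b hab hb
    exact ix_lt (mem_inter.1 (el_mem (P := X) (by omega))).1 (el_lt hab hb)
  · intro a b hab hb
    exact ix_lt (mem_inter.1 (el_mem (P := X) (by omega))).2 (el_lt hab hb)
  · intro a ha
    exact ix_lt_card (mem_inter.1 (el_mem (P := X) ha)).1
  · intro a ha
    exact ix_lt_card (mem_inter.1 (el_mem (P := X) ha)).2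
  · intro a ha
    have h1 := mem_inter.1 (el_mem (P := X) ha)
    show x (el U1 (ix U1 (el X a))) = x (el U2 (ix U2 (el X a)))
    rw [el_ix h1.1, el_ix h1.2]
  · intro a ha
    have h1 : el X a < z := el_lt_of ha
    show ix U1 (el X a) = a
    rw [ix_congr hX1 h1.le]
    exact ix_el (by omega)
  · intro a ha
    have h1 : el X a < z := el_lt_of ha
    show ix U2 (el X a) = a
    rw [ix_congr hX2 h1.le]
    exact ix_el (by omega)
  · intro t ht
    obtain ⟨h1, h2, h3, h4⟩ := hin t ht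
    show ix U1 (el X (ix X z + t)) = ix X z + 1 + t
    set p := el X (ix X z + t) with hp
    rw [ix_split' U1 h1.le, itv_cons hz1 h1, hi1]
    rw [ix_split' X h1.le, itv_drop hzX] at h4
    have h5 : itv U1 (z + 1) p = itv X (z + 1) p :=
      card_itv_congr (fun a ha1 ha2 => hKX1 a ha1 (by omega))
    rw [h5]
    omega
  · intro t ht
    obtain ⟨h1, h2, h3, h4⟩ := hin t ht
    show ix U2 (el X (ix X z + t)) = ix X z + t
    set p := el X (ix X z + t) with hp
    rw [ix_split' U2 h1.le, itv_drop hz2, hi2]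
    rw [ix_split' X h1.le, itv_drop hzX] at h4
    have h5 : itv U2 (z + 1) p = itv X (z + 1) p :=
      card_itv_congr (fun a ha1 ha2 => hKX2 a ha1 (by omega))
    rw [h5]
    omega
  · omega
  · omega
  · rw [← hb]
    exact hc2

end Pool.Agent.H430R3.LD
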