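import Pool.Agent.H430R3.LD.Block

/-! Counting periodic sets. -/

set_option autoImplicit false
set_option linter.unusedSectionVars false

namespace Pool.Agent.H430R3.LD

open Finset

/-- the part of `P` below `t` -/
def pre (P : Finset ℕ) (t : ℕ) : Finset ℕ := P.filter (· < t)

lemma mem_pre {P : Finset ℕ} {t p : ℕ} : p ∈ pre P t ↔ p ∈ P ∧ p < t := by
  simp [pre]

lemma pre_pre {P : Finset ℕ} {t t' : ℕ} (h : t ≤ t') : pre (pre P t') t = pre P t := by
  ext p
  simp only [mem_pre]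
  constructor
  · rintro ⟨⟨h1, h2⟩, h3⟩
    exact ⟨h1, h3⟩
  · rintro ⟨h1, h3⟩
    exact ⟨⟨h1, by omega⟩, h3⟩

lemma itv_pre {P : Finset ℕ} {t t' : ℕ} : itv (pre P t') t t' = itv P t t' := by
  ext p
  simp only [mem_itv, mem_pre]
  constructor
  · rintro ⟨⟨h1, h2⟩, h3⟩
    exact ⟨h1, h3⟩
  · rintro ⟨h1, h3⟩
    exact ⟨⟨h1, h3.2⟩, h3⟩

lemma pre_ext {P P' : Finset ℕ} {t t' : ℕ} (h1 : pre P t = pre P' t)
    (h2 : itv P t t' = itv P' t t') : pre P t' = pre P' t' := by
  ext p
  simp only [mem_pre]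
  by_cases hp : p < t
  · have h3 : p ∈ pre P t ↔ p ∈ pre P' t := by rw [h1]
    simp only [mem_pre] at h3
    tauto
  · have h3 : p ∈ itv P t t' ↔ p ∈ itv P' t t' := by rw [h2]
    simp only [mem_itv] at h3
    push Not at hp
    tauto

lemma seq_step (F : Finset (Finset ℕ)) {t t' A : ℕ} (htt : t ≤ t')
    (hA : ∀ Y : Finset ℕ, ∀ QQ : Finset (Finset ℕ),
      (∀ Q ∈ QQ, ∃ P ∈ F, pre P t = Y ∧ itv P t t' = Q) → QQ.card ≤ A) :
    (F.image (fun P => pre P t')).card ≤ A * (F.image (fun P => pre P t)).card := by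
  classical
  have himg : (F.image (fun P => pre P t')).image (fun P => pre P t) =
      F.image (fun P => pre P t) := by
    rw [image_image]
    apply image_congr
    intro P _
    exact pre_pre htt
  rw [← himg]
  apply card_le_mul_card_image
  intro Y _
  set S := (F.image (fun P => pre P t')).filter (fun P => pre P t = Y) with hS
  have h1 : S.card = (S.image (fun P => itv P t t')).card := by
    rw [card_image_of_injOn]
    intro P hP P' hP' h
    simp only [hS, coe_filter, mem_image, Set.mem_setOf_eq] at hP hP'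
    obtain ⟨⟨R, hR, rfl⟩, hPY⟩ := hP
    obtain ⟨⟨R', hR', rfl⟩, hPY'⟩ := hP'
    simp only [itv_pre] at h
    rw [pre_pre htt] at hPY hPY'
    exact pre_ext (hPY.trans hPY'.symm) h
  rw [h1]
  apply hA Y
  intro Q hQ
  rw [mem_image] at hQ
  obtain ⟨P, hP, rfl⟩ := hQ
  rw [hS, mem_filter, mem_image] at hP
  obtain ⟨⟨R, hR, rfl⟩, hPY⟩ := hP
  rw [pre_pre htt] at hPY
  exact ⟨R, hR, hPY, itv_pre.symm⟩

/-- few small subsets -/
lemma small_count {K : Finset ℕ} {q : ℕ} (hK : K.card = 4 * q) :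
    (K.powerset.filter (fun Y => Y.card ≤ q)).card ≤ 10 ^ q := by
  have h1 : ∑ Y ∈ K.powerset, 1 ^ Y.card * 3 ^ (K.card - Y.card) = (1 + 3) ^ K.card :=
    Finset.sum_pow_mul_eq_add_pow 1 3 K
  have h2 : (K.powerset.filter (fun Y => Y.card ≤ q)).card * 3 ^ (3 * q) ≤ 4 ^ (4 * q) := by
    calc (K.powerset.filter (fun Y => Y.card ≤ q)).card * 3 ^ (3 * q)
        = ∑ _Y ∈ K.powerset.filter (fun Y => Y.card ≤ q), 3 ^ (3 * q) := by simp
      _ ≤ ∑ Y ∈ K.powerset.filter (fun Y => Y.card ≤ q), 1 ^ Y.card * 3 ^ (K.card - Y.card) := by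
          apply sum_le_sum
          intro Y hY
          rw [mem_filter] at hY
          rw [one_pow, one_mul]
          exact Nat.pow_le_pow_right (by norm_num) (by omega)
      _ ≤ ∑ Y ∈ K.powerset, 1 ^ Y.card * 3 ^ (K.card - Y.card) :=
          sum_le_sum_of_subset (filter_subset _ _)
      _ = 4 ^ (4 * q) := by rw [h1, hK]
  have h3 : (4 : ℕ) ^ (4 * q) ≤ 10 ^ q * 3 ^ (3 * q) := by
    rw [pow_mul, pow_mul, ← mul_pow]
    exact Nat.pow_le_pow_left (by norm_num) q
  have h4 := h2.trans h3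
  exact Nat.le_of_mul_le_mul_right h4 (by positivity)

/-- at most half of the subsets have less than half of the elements -/
lemma half_count {K : Finset ℕ} {d : ℕ} (hK : 2 * d ≤ K.card) :
    2 * (K.powerset.filter (fun Y => Y.card < d)).card ≤ 2 ^ K.card := by
  classical
  set S := K.powerset.filter (fun Y => Y.card < d) with hS
  have h1 : (S.image (fun Y => K \ Y)).card = S.card := by
    rw [card_image_of_injOn]
    intro Y hY Y' hY' h
    simp only [hS, coe_filter, mem_powerset, Set.mem_setOf_eq] at hY hY'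
    have h2 : K \ (K \ Y) = K \ (K \ Y') := by
      simp only at h
      rw [h]
    rwa [Finset.sdiff_sdiff_eq_self hY.1, Finset.sdiff_sdiff_eq_self hY'.1] at h2
  have h2 : Disjoint S (S.image (fun Y => K \ Y)) := by
    rw [disjoint_left]
    intro Y hY hY'
    rw [mem_image] at hY'
    obtain ⟨Z, hZ, rfl⟩ := hY'
    rw [hS, mem_filter, mem_powerset] at hY hZ
    have := card_sdiff_of_subset hZ.1
    omega
  have h3 : S ∪ S.image (fun Y => K \ Y) ⊆ K.powerset := by
    intro Y hY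
    rw [mem_union, mem_image] at hY
    rcases hY with hY | ⟨Z, _, rfl⟩
    · exact (mem_filter.1 hY).1
    · exact mem_powerset.2 sdiff_subset
  have h4 := card_le_card h3
  rw [card_union_of_disjoint h2, h1, card_powerset] at h4
  omega

/-- the contents of one block of periodic sets -/
lemma block_count {x : ℕ → ℕ} {n h D : ℕ} (hx : Seq x n h) (hD : 0 < D) {t l : ℕ} (d : ℕ)
    (hl : l = 2 * (d + 2) + 1) (hDd : D ≤ d) (htl : t + l ≤ n) {Y : Finset ℕ}
    (hY : h + D + 4 ≤ Y.card) {R : Finset ℕ} (hR : h ≤ R.card) (hRt : ∀ p ∈ R, t + l ≤ p)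
    {QQ : Finset (Finset ℕ)}
    (hQ : ∀ Q ∈ QQ, ∃ P ⊆ range n, PD (en x P) P.card h D ∧ pre P t = Y ∧ itv P t (t + l) = Q ∧
      R ⊆ P) : QQ.card ≤ 3 * 2 ^ (l - 2) := by
  classical
  set K : Finset ℕ := Ico (t + 1) (t + l) with hK
  have hKc : K.card = l - 1 := by
    rw [hK, Nat.card_Ico]
    omega
  set Q1 := (QQ.filter (fun Q => t ∈ Q)).image (fun Q => Q.erase t) with hQ1
  set Q0 := (QQ.filter (fun Q => t ∉ Q)).image (fun Q => Q.erase t) with hQ0
  have hc1 : Q1.card = (QQ.filter (fun Q => t ∈ Q)).card := by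
    rw [hQ1, card_image_of_injOn]
    intro P hP P' hP' he
    simp only [coe_filter, Set.mem_setOf_eq] at hP hP'
    simp only at he
    rw [← insert_erase hP.2, ← insert_erase hP'.2, he]
  have hc0 : Q0.card = (QQ.filter (fun Q => t ∉ Q)).card := by
    rw [hQ0, card_image_of_injOn]
    intro P hP P' hP' he
    simp only [coe_filter, Set.mem_setOf_eq] at hP hP'
    simp only at he
    rwa [erase_eq_of_notMem hP.2, erase_eq_of_notMem hP'.2] at he
  have hsum : QQ.card = Q1.card + Q0.card := by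
    rw [hc1, hc0]
    exact (card_filter_add_card_filter_not (s := QQ) (fun Q => t ∈ Q)).symm
  have hsub : ∀ Q ∈ QQ, Q.erase t ⊆ K := by
    intro Q hQQ p hp
    obtain ⟨P, _, _, _, hPQ, _⟩ := hQ Q hQQ
    rw [mem_erase, ← hPQ, mem_itv] at hp
    rw [hK, mem_Ico]
    omega
  have hU : Q1 ∪ Q0 ⊆ K.powerset := by
    intro Q hQQ
    rw [mem_union, hQ1, hQ0, mem_image, mem_image] at hQQ
    rw [mem_powerset]
    rcases hQQ with ⟨P, hP, rfl⟩ | ⟨P, hP, rfl⟩
    · exact hsub P (mem_filter.1 hP).1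
    · exact hsub P (mem_filter.1 hP).1
  have hI : Q1 ∩ Q0 ⊆ K.powerset.filter (fun Y => Y.card < d + 2) := by
    intro S hS
    rw [mem_filter]
    refine ⟨hU (mem_union_left _ (mem_inter.1 hS).1), ?_⟩
    rw [mem_inter, hQ1, hQ0, mem_image, mem_image] at hS
    obtain ⟨⟨P1', hP1', rfl⟩, ⟨P0', hP0', hPP⟩⟩ := hS
    rw [mem_filter] at hP1' hP0'
    obtain ⟨P1, hP1n, hP1, hY1, hI1, hR1⟩ := hQ _ hP1'.1
    obtain ⟨P0, hP0n, hP0, hY0, hI0, hR0⟩ := hQ _ hP0'.1
    by_contra hcard
    push Not at hcard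
    have ht1 : t ∈ P1 := by
      have := hP1'.2
      rw [← hI1, mem_itv] at this
      exact this.1
    have ht0 : t ∉ P0 := by
      intro h0
      apply hP0'.2
      rw [← hI0, mem_itv]
      exact ⟨h0, le_rfl, by omega⟩
    have hmem : ∀ p, t < p → p < t + l → (p ∈ P1 ↔ p ∈ P0) := by
      intro p hp1 hp2
      have h1 : p ∈ P1'.erase t ↔ p ∈ P0'.erase t := by rw [hPP]
      rw [mem_erase, mem_erase, ← hI1, ← hI0, mem_itv, mem_itv] at h1
      have h2 : p ≠ t := by omega
      have h3 : t ≤ p := by omega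
      tauto
    refine block_contra hx hP1n hP0n hP1 hP0 hD (z := t) (e := t + l) (by omega) ht1 ht0 ?_ hmem
      ?_ ?_ ?_ htl
    · intro p hp
      have h1 : p ∈ pre P1 t ↔ p ∈ pre P0 t := by rw [hY1, hY0]
      rw [mem_pre, mem_pre] at h1
      tauto
    · have : ix P1 t = Y.card := by
        rw [← hY1]
        rfl
      rw [this]
      exact hY
    · have h1 : P1'.erase t = itv P1 (t + 1) (t + l) := by
        rw [← hI1]
        ext p
        rw [mem_erase, mem_itv, mem_itv]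
        constructor
        · rintro ⟨g1, g2, g3, g4⟩
          exact ⟨g2, by omega, g4⟩
        · rintro ⟨g2, g3, g4⟩
          exact ⟨by omega, g2, by omega, g4⟩
      rw [← h1]
      omega
    · refine hR.trans (card_le_card ?_)
      intro p hp
      rw [mem_itv, mem_inter]
      exact ⟨⟨hR1 hp, hR0 hp⟩, hRt p hp, mem_range.1 (hP1n (hR1 hp))⟩
  have h1 := card_union_add_card_inter Q1 Q0
  have h2 := card_le_card hU
  have h3 := card_le_card hI
  have h4 := half_count (K := K) (d := d + 2) (by omega)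
  rw [card_powerset] at h2
  rw [hKc] at h2 h4
  have h5 : 2 ^ (l - 1) = 2 * 2 ^ (l - 2) := by
    rw [← pow_succ']
    congr 1
    omega
  omega

end Pool.Agent.H430R3.LD
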