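import Mathlib

/-! Iterated labels of increasing sequences of naturals. -/

set_option autoImplicit false
set_option linter.unusedSectionVars false

namespace Pool.Agent.H430R3.LD

lemma dl_ex (a b : ℕ) : ∃ n, a / 2 ^ n = b / 2 ^ n := by
  refine ⟨a + b, ?_⟩
  have h1 : a < 2 ^ (a + b) := lt_of_le_of_lt (Nat.le_add_right a b) Nat.lt_two_pow_self
  have h2 : b < 2 ^ (a + b) := lt_of_le_of_lt (Nat.le_add_left b a) Nat.lt_two_pow_self
  rw [Nat.div_eq_of_lt h1, Nat.div_eq_of_lt h2]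

/-- the least `n` with `a / 2 ^ n = b / 2 ^ n` -/
def dl (a b : ℕ) : ℕ := Nat.find (dl_ex a b)

lemma dl_spec (a b : ℕ) : a / 2 ^ dl a b = b / 2 ^ dl a b := Nat.find_spec (dl_ex a b)

lemma div_succ (a n : ℕ) : a / 2 ^ (n + 1) = a / 2 ^ n / 2 := by
  rw [pow_succ, Nat.div_div_eq_div_mul]

lemma div_eq_mono {a b n m : ℕ} (h : a / 2 ^ n = b / 2 ^ n) (hnm : n ≤ m) :
    a / 2 ^ m = b / 2 ^ m := by
  induction m, hnm using Nat.le_induction with
  | base => exact h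
  | succ m _ ih => rw [div_succ, div_succ, ih]

lemma dl_le_iff {a b n : ℕ} : dl a b ≤ n ↔ a / 2 ^ n = b / 2 ^ n :=
  ⟨fun h => div_eq_mono (dl_spec a b) h, fun h => Nat.find_min' (dl_ex a b) h⟩

lemma dl_comm (a b : ℕ) : dl a b = dl b a := by
  apply le_antisymm
  · rw [dl_le_iff]
    exact (dl_spec b a).symm
  · rw [dl_le_iff]
    exact (dl_spec a b).symm

lemma dl_self (a : ℕ) : dl a a = 0 := by
  have : dl a a ≤ 0 := dl_le_iff.2 rfl
  omega

lemma dl_le_of_lt {a b n : ℕ} (ha : a < 2 ^ n) (hb : b < 2 ^ n) : dl a b ≤ n := by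
  rw [dl_le_iff, Nat.div_eq_of_lt ha, Nat.div_eq_of_lt hb]

/-- the ultrametric identity -/
lemma dl_max {a b c : ℕ} (hab : a ≤ b) (hbc : b ≤ c) : dl a c = max (dl a b) (dl b c) := by
  apply le_antisymm
  · rw [dl_le_iff]
    have h1 := div_eq_mono (dl_spec a b) (le_max_left (dl a b) (dl b c))
    have h2 := div_eq_mono (dl_spec b c) (le_max_right (dl a b) (dl b c))
    rw [h1, h2]
  · have h := dl_spec a c
    have h1 : a / 2 ^ dl a c ≤ b / 2 ^ dl a c := Nat.div_le_div_right hab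
    have h2 : b / 2 ^ dl a c ≤ c / 2 ^ dl a c := Nat.div_le_div_right hbc
    rw [max_le_iff, dl_le_iff, dl_le_iff]
    omega

lemma dl_pos {a b : ℕ} (h : a ≠ b) : 0 < dl a b := by
  rw [Nat.pos_iff_ne_zero]
  intro h0
  have := dl_spec a b
  rw [h0] at this
  simp at this
  exact h this

/-- consecutive labels differ -/
lemma dl_ne {a b c : ℕ} (hab : a < b) (hbc : b < c) : dl a b ≠ dl b c := by
  intro h
  have h0 := dl_pos (ne_of_lt hab)
  obtain ⟨n, hn⟩ : ∃ n, dl a b = n + 1 := ⟨dl a b - 1, by omega⟩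
  have h1 : ¬ a / 2 ^ n = b / 2 ^ n := by
    rw [← dl_le_iff]
    omega
  have h2 : ¬ b / 2 ^ n = c / 2 ^ n := by
    rw [← dl_le_iff]
    omega
  have h3 : a / 2 ^ (n + 1) = b / 2 ^ (n + 1) := by
    rw [← dl_le_iff]
    omega
  have h4 : b / 2 ^ (n + 1) = c / 2 ^ (n + 1) := by
    rw [← dl_le_iff]
    omega
  rw [div_succ, div_succ] at h3 h4
  have h5 : a / 2 ^ n ≤ b / 2 ^ n := Nat.div_le_div_right hab.le
  have h6 : b / 2 ^ n ≤ c / 2 ^ n := Nat.div_le_div_right hbc.le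
  omega

/-- iterated labels of a sequence -/
def w (u : ℕ → ℕ) : ℕ → ℕ → ℕ
  | 0 => u
  | j + 1 => fun r => dl (w u j r) (w u j (r + 1))

/-- signs of the iterated labels -/
def sg (u : ℕ → ℕ) (j r : ℕ) : Bool := decide (w u j r < w u j (r + 1))

/-- the enumeration of the values of `x` on the positions in `P` -/
noncomputable def en (x : ℕ → ℕ) (P : Finset ℕ) (r : ℕ) : ℕ := x (Nat.nth (· ∈ P) r)

/-- the tower bounding the values -/
def gg : ℕ → ℕ
  | 0 => 3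
  | j + 1 => 2 ^ (gg j - 1)

/-- `P` has the sign array `c` -/
def Ty (x : ℕ → ℕ) (h : ℕ) (P : Finset ℕ) (c : ℕ → ℕ → Bool) : Prop :=
  ∀ j ≤ h, ∀ r, r + j + 1 < P.card → sg (en x P) j r = c j r

/-- increasing bounded sequence of length `n` -/
def Seq (x : ℕ → ℕ) (n h : ℕ) : Prop := (∀ i j, i < j → j < n → x i < x j) ∧ ∀ i < n, x i < gg h

end Pool.Agent.H430R3.LD
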