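import Pool.Agent.H430R3.LD.Defs

/-! Sequences whose first levels are monotone; periodicity. -/

set_option autoImplicit false
set_option linter.unusedSectionVars false

namespace Pool.Agent.H430R3.LD

/-- increasing on length `s` -/
def Inc (u : ℕ → ℕ) (s : ℕ) : Prop := ∀ r, r + 1 < s → u r < u (r + 1)

/-- levels below `i` have constant sign -/
def LG (u : ℕ → ℕ) (s i : ℕ) (dir : ℕ → Bool) : Prop :=
  ∀ j < i, ∀ r, r + j + 1 < s → sg u j r = dir j

lemma LG.mono {u : ℕ → ℕ} {s i i' : ℕ} {dir : ℕ → Bool} (h : LG u s i dir) (hi : i' ≤ i) :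
    LG u s i' dir := fun j hj => h j (by omega)

lemma w_congr {u v : ℕ → ℕ} {s : ℕ} (h : ∀ a < s, u a = v a) (j : ℕ) :
    ∀ r, r + j < s → w u j r = w v j r := by
  induction j with
  | zero =>
    intro r hr
    exact h r (by omega)
  | succ j ih =>
    intro r hr
    simp only [w]
    rw [ih r (by omega), ih (r + 1) (by omega)]

lemma sg_congr {u v : ℕ → ℕ} {s : ℕ} (h : ∀ a < s, u a = v a) (j : ℕ) {r : ℕ}
    (hr : r + j + 1 < s) : sg u j r = sg v j r := by
  simp only [sg]
  rw [w_congr h j r (by omega), w_congr h j (r + 1) (by omega)]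

lemma adj_ne {u : ℕ → ℕ} {s : ℕ} (hu : Inc u s) {dir : ℕ → Bool} (i : ℕ) (h : LG u s i dir) :
    ∀ r, r + i + 1 < s → w u i r ≠ w u i (r + 1) := by
  induction i with
  | zero =>
    intro r hr
    exact ne_of_lt (hu r (by omega))
  | succ i ih =>
    intro r hr
    have ih' := ih (h.mono (Nat.le_succ i))
    have h1 := h i (Nat.lt_succ_self i) r (by omega)
    have h2 := h i (Nat.lt_succ_self i) (r + 1) (by omega)
    have n1 := ih' r (by omega)
    have n2 := ih' (r + 1) (by omega)
    simp only [w]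
    cases hd : dir i with
    | true =>
      rw [hd] at h1 h2
      simp only [sg, decide_eq_true_eq] at h1 h2
      exact dl_ne h1 h2
    | false =>
      rw [hd] at h1 h2
      simp only [sg, decide_eq_false_iff_not, not_lt] at h1 h2
      have h3 := dl_ne (lt_of_le_of_ne h2 (Ne.symm n2)) (lt_of_le_of_ne h1 (Ne.symm n1))
      rw [dl_comm (w u i (r + 1 + 1)), dl_comm (w u i (r + 1)) (w u i r)] at h3
      exact Ne.symm h3

lemma st_true {u : ℕ → ℕ} {s : ℕ} {dir : ℕ → Bool} {i j : ℕ} (h : LG u s i dir) (hj : j < i)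
    (hd : dir j = true) {r : ℕ} (hr : r + j + 1 < s) : w u j r < w u j (r + 1) := by
  have h1 := h j hj r hr
  rw [hd] at h1
  simpa [sg] using h1

lemma st_false {u : ℕ → ℕ} {s : ℕ} (hu : Inc u s) {dir : ℕ → Bool} {i j : ℕ} (h : LG u s i dir)
    (hj : j < i) (hd : dir j = false) {r : ℕ} (hr : r + j + 1 < s) :
    w u j (r + 1) < w u j r := by
  have h1 := h j hj r hr
  rw [hd] at h1
  simp only [sg, decide_eq_false_iff_not, not_lt] at h1
  exact lt_of_le_of_ne h1 (Ne.symm (adj_ne hu j (h.mono hj.le) r hr))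

lemma st_true' {u : ℕ → ℕ} {s : ℕ} {dir : ℕ → Bool} {i j : ℕ} (h : LG u s i dir) (hj : j < i)
    (hd : dir j = true) {a b : ℕ} (hab : a < b) (hb : b + j < s) : w u j a < w u j b := by
  induction b, hab using Nat.le_induction with
  | base => exact st_true h hj hd (by omega)
  | succ b _ ih => exact (ih (by omega)).trans (st_true h hj hd (by omega))

lemma st_false' {u : ℕ → ℕ} {s : ℕ} (hu : Inc u s) {dir : ℕ → Bool} {i j : ℕ} (h : LG u s i dir)
    (hj : j < i) (hd : dir j = false) {a b : ℕ} (hab : a < b) (hb : b + j < s) :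
    w u j b < w u j a := by
  induction b, hab using Nat.le_induction with
  | base => exact st_false hu h hj hd (by omega)
  | succ b _ ih => exact (st_false hu h hj hd (by omega)).trans (ih (by omega))

/-- labels of far elements -/
lemma seg {u : ℕ → ℕ} {s : ℕ} (hu : Inc u s) {dir : ℕ → Bool} {i j : ℕ} (h : LG u s i dir)
    (hj : j + 1 < i) {a b : ℕ} (hab : a < b) (hb : b + j < s) :
    dl (w u j a) (w u j b) = if dir (j + 1) then w u (j + 1) (b - 1) else w u (j + 1) a := by
  induction b, hab using Nat.le_induction with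
  | base =>
    simp only [w, Nat.succ_eq_add_one, Nat.add_sub_cancel]
    split_ifs <;> rfl
  | succ b hab ih =>
    have hab' : a < b := hab
    have ih' := ih (by omega)
    have key : dl (w u j a) (w u j (b + 1)) =
        max (dl (w u j a) (w u j b)) (dl (w u j b) (w u j (b + 1))) := by
      cases hd : dir j with
      | true =>
        exact dl_max (st_true' h (by omega) hd hab' (by omega)).le
          (st_true' h (by omega) hd (Nat.lt_succ_self b) (by omega)).le
      | false =>
        rw [dl_comm (w u j a) (w u j (b + 1)), dl_comm (w u j a) (w u j b),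
          dl_comm (w u j b) (w u j (b + 1)), max_comm]
        exact dl_max (st_false' hu h (by omega) hd (Nat.lt_succ_self b) (by omega)).le
          (st_false' hu h (by omega) hd hab' (by omega)).le
    have e : dl (w u j b) (w u j (b + 1)) = w u (j + 1) b := rfl
    rw [key, ih', e]
    cases hd : dir (j + 1) with
    | true =>
      simp only [if_true, Nat.add_sub_cancel]
      exact max_eq_right (st_true' h hj hd (by omega) (by omega)).le
    | false =>
      simp only [Bool.false_eq_true, if_false]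
      exact max_eq_left (st_false' hu h hj hd hab' (by omega)).le

/-- the number of increasing levels among `1, ..., j` -/
def fc (dir : ℕ → Bool) : ℕ → ℕ
  | 0 => 0
  | j + 1 => fc dir j + if dir (j + 1) then 1 else 0

lemma fc_le (dir : ℕ → Bool) (j : ℕ) : fc dir j ≤ j := by
  induction j with
  | zero => simp [fc]
  | succ j ih =>
    simp only [fc]
    split_ifs <;> omega

lemma rho_add {ρ : ℕ → ℕ} {s' : ℕ} (hρ : ∀ a b, a < b → b < s' → ρ a < ρ b) {a : ℕ} (t : ℕ)
    (h : a + t < s') : ρ a + t ≤ ρ (a + t) := by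
  induction t with
  | zero => simp
  | succ t ih =>
    have h1 := ih (by omega)
    have h2 := hρ (a + t) (a + (t + 1)) (by omega) h
    omega

/-- the iterated labels of a subsequence -/
lemma subseq {u : ℕ → ℕ} {s : ℕ} (hu : Inc u s) {dir : ℕ → Bool} {i : ℕ} (h : LG u s i dir)
    {ρ : ℕ → ℕ} {s' : ℕ} (hρ : ∀ a b, a < b → b < s' → ρ a < ρ b) (hρs : ∀ a < s', ρ a < s)
    (j : ℕ) (hj : j < i) :
    ∀ q, q + j < s' → w (fun a => u (ρ a)) j q = w u j (ρ (q + fc dir j) - fc dir j) := by
  induction j with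
  | zero =>
    intro q hq
    simp [w, fc]
  | succ j ih =>
    intro q hq
    have ih' := ih (by omega)
    have hf := fc_le dir j
    have e : w (fun a => u (ρ a)) (j + 1) q =
        dl (w (fun a => u (ρ a)) j q) (w (fun a => u (ρ a)) j (q + 1)) := rfl
    rw [e, ih' q (by omega), ih' (q + 1) (by omega)]
    have h1 : ρ (q + fc dir j) < ρ (q + 1 + fc dir j) := hρ _ _ (by omega) (by omega)
    have h2 : ρ 0 + (q + fc dir j) ≤ ρ (0 + (q + fc dir j)) := rho_add hρ _ (by omega)
    rw [Nat.zero_add] at h2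
    have h3 : ρ (q + 1 + fc dir j) + (j - fc dir j) ≤ ρ (q + 1 + fc dir j + (j - fc dir j)) :=
      rho_add hρ _ (by omega)
    have h4 := hρs (q + 1 + fc dir j + (j - fc dir j)) (by omega)
    rw [seg hu h hj (by omega) (by omega)]
    cases hd : dir (j + 1) with
    | true =>
      simp only [fc, hd, if_true]
      congr 1
      rw [show q + (fc dir j + 1) = q + 1 + fc dir j from by ring]
      omega
    | false =>
      simp [fc, hd]

lemma gg_pos (j : ℕ) : 0 < gg j := by
  cases j with
  | zero => simp [gg]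
  | succ j => simp [gg]

lemma w_bound {u : ℕ → ℕ} {s h : ℕ} (hb : ∀ r < s, u r < gg h) (j : ℕ) (hj : j ≤ h) :
    ∀ r, r + j < s → w u j r < gg (h - j) := by
  induction j with
  | zero =>
    intro r hr
    exact hb r (by omega)
  | succ j ih =>
    intro r hr
    have ih' := ih (by omega)
    have h1 := ih' r (by omega)
    have h2 := ih' (r + 1) (by omega)
    obtain ⟨n, hn⟩ : ∃ n, h - j = n + 1 := ⟨h - j - 1, by omega⟩
    have hn' : h - (j + 1) = n := by omega
    rw [hn] at h1 h2
    simp only [gg] at h1 h2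
    have h3 := dl_le_of_lt h1 h2
    have h4 := gg_pos n
    rw [hn']
    simp only [w]
    omega

/-- some level is not monotone -/
lemma exists_level {u : ℕ → ℕ} {s h : ℕ} (hu : Inc u s) (hb : ∀ r < s, u r < gg h)
    (hs : h + 4 ≤ s) : ∃ i ≤ h, ∃ dir, LG u s i dir ∧ (∃ r, r + i + 1 < s ∧ sg u i r = true) ∧
      ∃ r, r + i + 1 < s ∧ sg u i r = false := by
  by_contra hcon
  push Not at hcon
  have hall : ∀ i ≤ h + 1, ∃ dir, LG u s i dir := by
    intro i
    induction i with
    | zero => exact fun _ => ⟨fun _ => true, fun j hj => absurd hj (Nat.not_lt_zero _)⟩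
    | succ i ih =>
      intro hi
      obtain ⟨dir, hdir⟩ := ih (by omega)
      have h1 := hcon i (by omega) dir hdir
      by_cases h2 : ∃ r, r + i + 1 < s ∧ sg u i r = true
      · have h3 := h1 h2
        refine ⟨fun j => if j = i then true else dir j, ?_⟩
        intro j hj r hr
        by_cases hji : j = i
        · subst hji
          have h4 := h3 r hr
          simpa using h4
        · simp only [if_neg hji]
          exact hdir j (by omega) r hr
      · push Not at h2
        refine ⟨fun j => if j = i then false else dir j, ?_⟩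
        intro j hj r hr
        by_cases hji : j = i
        · subst hji
          have h4 := h2 r hr
          simpa using h4
        · simp only [if_neg hji]
          exact hdir j (by omega) r hr
  obtain ⟨dir, hdir⟩ := hall (h + 1) le_rfl
  have hw : ∀ r, r + h < s → w u h r < 3 := by
    intro r hr
    have := w_bound hb h le_rfl r hr
    rw [Nat.sub_self] at this
    exact this
  have w0 := hw 0 (by omega)
  have w3 := hw 3 (by omega)
  cases hd : dir h with
  | true =>
    have a1 := st_true hdir (Nat.lt_succ_self h) hd (r := 0) (by omega)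
    have a2 := st_true hdir (Nat.lt_succ_self h) hd (r := 1) (by omega)
    have a3 := st_true hdir (Nat.lt_succ_self h) hd (r := 2) (by omega)
    simp only [Nat.zero_add] at a1
    norm_num at a2 a3
    omega
  | false =>
    have a1 := st_false hu hdir (Nat.lt_succ_self h) hd (r := 0) (by omega)
    have a2 := st_false hu hdir (Nat.lt_succ_self h) hd (r := 1) (by omega)
    have a3 := st_false hu hdir (Nat.lt_succ_self h) hd (r := 2) (by omega)
    simp only [Nat.zero_add] at a1
    norm_num at a2 a3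
    omega

/-- periodic with period `D` -/
def PD (u : ℕ → ℕ) (s h D : ℕ) : Prop :=
  ∀ j ≤ h, ∀ r, r + D + j + 1 < s → sg u j (r + D) = sg u j r

lemma PD.mod {u : ℕ → ℕ} {s h D : ℕ} (hP : PD u s h D) (hD : 0 < D) {j : ℕ} (hj : j ≤ h) (r : ℕ) :
    r + j + 1 < s → sg u j r = sg u j (r % D) := by
  induction r using Nat.strong_induction_on with
  | _ r ih =>
    intro hr
    by_cases hlt : r < D
    · rw [Nat.mod_eq_of_lt hlt]
    · have h1 := hP j hj (r - D) (by omega)
      have h2 := ih (r - D) (by omega) (by omega)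
      have h3 : r - D + D = r := by omega
      rw [h3] at h1
      rw [h1, h2]
      congr 1
      conv_rhs => rw [← h3]
      rw [Nat.add_mod_right]

/-- two periodic sequences cannot differ by a shift of one in a block -/
theorem per_contra {u1 u2 : ℕ → ℕ} {s1 s2 h D : ℕ} (hu1 : Inc u1 s1) (hu2 : Inc u2 s2)
    (hb1 : ∀ r < s1, u1 r < gg h) (hP1 : PD u1 s1 h D) (hP2 : PD u2 s2 h D) (hD : 0 < D)
    {ρ1 ρ2 : ℕ → ℕ} {sX ρ b : ℕ} (hρ1 : ∀ a b, a < b → b < sX → ρ1 a < ρ1 b)
    (hρ2 : ∀ a b, a < b → b < sX → ρ2 a < ρ2 b) (hs1 : ∀ a < sX, ρ1 a < s1)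
    (hs2 : ∀ a < sX, ρ2 a < s2) (hv : ∀ a < sX, u1 (ρ1 a) = u2 (ρ2 a))
    (hpre1 : ∀ a < ρ, ρ1 a = a) (hpre2 : ∀ a < ρ, ρ2 a = a)
    (hK1 : ∀ t < b, ρ1 (ρ + t) = ρ + 1 + t) (hK2 : ∀ t < b, ρ2 (ρ + t) = ρ + t)
    (hρ : h + D + 4 ≤ ρ) (hsX : ρ + b + h ≤ sX) (hb : D + 2 ≤ b) : False := by
  have hs1' : ρ + b + h ≤ s1 := by
    have h1 := rho_add hρ1 (a := 0) (ρ + b + h - 1) (by omega)
    have h2 := hs1 (0 + (ρ + b + h - 1)) (by omega)
    omega
  have hs2' : ρ + b + h ≤ s2 := by
    have h1 := rho_add hρ2 (a := 0) (ρ + b + h - 1) (by omega)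
    have h2 := hs2 (0 + (ρ + b + h - 1)) (by omega)
    omega
  have hpre : ∀ a < ρ, u1 a = u2 a := by
    intro a ha
    have h1 := hv a (by omega)
    rwa [hpre1 a ha, hpre2 a ha] at h1
  have hsame : ∀ j ≤ h, ∀ r, r + j + 1 < s1 → r + j + 1 < s2 → sg u1 j r = sg u2 j r := by
    intro j hj r hr1 hr2
    rw [hP1.mod hD hj r hr1, hP2.mod hD hj r hr2]
    have h1 := Nat.mod_lt r hD
    exact sg_congr hpre j (by omega)
  obtain ⟨i, hi, dir, hdir, ⟨r1, hr1, hr1'⟩, ⟨r2, hr2, hr2'⟩⟩ := exists_level hu1 hb1 (by omega)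
  have hdir2 : LG u2 s2 i dir := by
    intro j hj r hr
    rw [hP2.mod hD (by omega) r hr]
    have h1 := Nat.mod_lt r hD
    rw [← sg_congr hpre j (by omega)]
    exact hdir j hj _ (by omega)
  -- the level is positive
  obtain ⟨i', rfl⟩ : ∃ i', i = i' + 1 := by
    cases i with
    | zero =>
      exfalso
      simp only [sg, w, decide_eq_false_iff_not] at hr2'
      exact hr2' (hu1 r2 (by omega))
    | succ i' => exact ⟨i', rfl⟩
  have hf := fc_le dir i'
  set f := fc dir i' with hfdef
  have hkey : ∀ t < b, w u1 i' (ρ + 1 + t - f) = w u2 i' (ρ + t - f) := by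
    intro t ht
    have e1 := subseq hu1 hdir hρ1 hs1 i' (Nat.lt_succ_self i') (ρ + t - f) (by omega)
    have e2 := subseq hu2 hdir2 hρ2 hs2 i' (Nat.lt_succ_self i') (ρ + t - f) (by omega)
    rw [← hfdef] at e1 e2
    have e3 : ρ + t - f + f = ρ + t := by omega
    rw [e3] at e1 e2
    rw [hK1 t ht] at e1
    rw [hK2 t ht] at e2
    rw [← e1, ← e2]
    exact w_congr hv i' _ (by omega)
  have hsg : ∀ t, t + 2 < b → sg u1 (i' + 1) (ρ + 1 + t - f) = sg u2 (i' + 1) (ρ + t - f) := by
    intro t ht
    have k0 := hkey t (by omega)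
    have k1 := hkey (t + 1) (by omega)
    have k2 := hkey (t + 2) (by omega)
    have a1 : ρ + 1 + t - f + 1 = ρ + 1 + (t + 1) - f := by omega
    have a2 : ρ + 1 + (t + 1) - f + 1 = ρ + 1 + (t + 2) - f := by omega
    have b1 : ρ + t - f + 1 = ρ + (t + 1) - f := by omega
    have b2 : ρ + (t + 1) - f + 1 = ρ + (t + 2) - f := by omega
    have W1 : w u1 (i' + 1) (ρ + 1 + t - f) = w u2 (i' + 1) (ρ + t - f) := by
      show dl _ _ = dl _ _
      rw [a1, b1, k0, k1]
    have W2 : w u1 (i' + 1) (ρ + 1 + t - f + 1) = w u2 (i' + 1) (ρ + t - f + 1) := by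
      rw [a1, b1]
      show dl _ _ = dl _ _
      rw [a2, b2, k1, k2]
    unfold sg
    rw [W1, W2]
  have hshift : ∀ t, t + 2 < b → sg u1 (i' + 1) (ρ - f + (t + 1)) = sg u1 (i' + 1) (ρ - f + t) := by
    intro t ht
    have h1 := hsg t ht
    have h2 := hsame (i' + 1) hi (ρ + t - f) (by omega) (by omega)
    have c1 : ρ + 1 + t - f = ρ - f + (t + 1) := by omega
    have c2 : ρ + t - f = ρ - f + t := by omega
    rw [c1, ← h2, c2] at h1
    exact h1
  have hconst : ∀ t, t + 1 < b → sg u1 (i' + 1) (ρ - f + t) = sg u1 (i' + 1) (ρ - f) := by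
    intro t
    induction t with
    | zero => exact fun _ => rfl
    | succ t ih =>
      intro ht
      rw [hshift t (by omega)]
      exact ih (by omega)
  have hall : ∀ r, r + (i' + 1) + 1 < s1 → sg u1 (i' + 1) r = sg u1 (i' + 1) (ρ - f) := by
    intro r hr
    -- find `t < D` with `ρ - f + t ≡ r`
    obtain ⟨t, htD, hmod⟩ : ∃ t < D, (ρ - f + t) % D = r % D := by
      refine ⟨(r + (D - (ρ - f) % D)) % D, Nat.mod_lt _ hD, ?_⟩
      have h1 := Nat.mod_lt (ρ - f) hD
      have h2 := Nat.mod_add_div (ρ - f) D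
      rw [Nat.add_mod_mod]
      have h3 : ρ - f + (r + (D - (ρ - f) % D)) = r + D * ((ρ - f) / D + 1) := by
        have : D * ((ρ - f) / D + 1) = D * ((ρ - f) / D) + D := by ring
        rw [this]
        omega
      rw [h3, Nat.add_mul_mod_self_left]
    have h4 := hP1.mod hD hi r hr
    have h5 := hP1.mod hD hi (ρ - f + t) (by omega)
    rw [h4, ← hmod, ← h5]
    exact hconst t (by omega)
  have h6 := hall r1 hr1
  have h7 := hall r2 hr2
  rw [hr1'] at h6
  rw [hr2', ← h6] at h7
  exact absurd h7 (by simp)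

end Pool.Agent.H430R3.LD
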