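import Pool.Agent.H430R3.LD.Count

/-! Counting the periodic subsets of an interval. -/

set_option autoImplicit false
set_option linter.unusedSectionVars false

namespace Pool.Agent.H430R3.LD

open Finset

lemma per_fixed {x : ℕ → ℕ} {n h D : ℕ} (hx : Seq x n h) (hD : 0 < D) {d l : ℕ}
    (hl : l = 2 * (d + 2) + 1) (hDd : D ≤ d) {s1 N e : ℕ} (he : s1 + N * l ≤ e) (hen : e ≤ n)
    {UL UR : Finset ℕ} (hUL : h + D + 4 ≤ UL.card) (hUR : h ≤ UR.card)
    {G : Finset (Finset ℕ)}
    (hG : ∀ P ∈ G, P ⊆ range e ∧ PD (en x P) P.card h D ∧ pre P s1 = UL ∧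
      itv P (s1 + N * l) e = UR) : G.card ≤ (3 * 2 ^ (l - 2)) ^ N := by
  classical
  have key : ∀ i ≤ N, (G.image (fun P => pre P (s1 + i * l))).card ≤ (3 * 2 ^ (l - 2)) ^ i := by
    intro i
    induction i with
    | zero =>
      intro _
      rw [pow_zero]
      have : G.image (fun P => pre P (s1 + 0 * l)) ⊆ {UL} := by
        intro Y hY
        rw [mem_image] at hY
        obtain ⟨P, hP, rfl⟩ := hY
        rw [mem_singleton, Nat.zero_mul, Nat.add_zero]
        exact (hG P hP).2.2.1
      exact (card_le_card this).trans (by simp)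
    | succ i ih =>
      intro hi
      have hil : (i + 1) * l ≤ N * l := Nat.mul_le_mul_right l hi
      have e1 : s1 + (i + 1) * l = s1 + i * l + l := by ring
      have h1 := seq_step G (t := s1 + i * l) (t' := s1 + i * l + l) (A := 3 * 2 ^ (l - 2))
        (by omega) (by
          intro Y QQ hQ
          rcases QQ.eq_empty_or_nonempty with rfl | ⟨Q0, hQ0⟩
          · simp
          · obtain ⟨P0, hP0, hP0Y, _⟩ := hQ Q0 hQ0
            have hY : UL.card ≤ Y.card := by
              rw [← hP0Y, ← (hG P0 hP0).2.2.1]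
              apply card_le_card
              intro p hp
              rw [mem_pre] at hp ⊢
              exact ⟨hp.1, by omega⟩
            refine block_count hx hD d hl hDd (t := s1 + i * l) (by omega) (Y := Y) (by omega)
              (R := UR) hUR ?_ ?_
            · intro p hp
              rw [← (hG P0 hP0).2.2.2, mem_itv] at hp
              omega
            · intro Q hQQ
              obtain ⟨P, hP, hPY, hPQ⟩ := hQ Q hQQ
              obtain ⟨g1, g2, g3, g4⟩ := hG P hP
              refine ⟨P, g1.trans (range_subset_range.2 hen), g2, hPY, hPQ, ?_⟩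
              rw [← g4]
              exact filter_subset _ _)
      rw [e1, pow_succ, Nat.mul_comm ((3 * 2 ^ (l - 2)) ^ i)]
      exact h1.trans (Nat.mul_le_mul_left _ (ih (by omega)))
  have h2 : G.card = (G.image (fun P => pre P (s1 + N * l))).card := by
    rw [card_image_of_injOn]
    intro P hP P' hP' hPP
    obtain ⟨g1, g2, g3, g4⟩ := hG P hP
    obtain ⟨f1, f2, f3, f4⟩ := hG P' hP'
    have h3 := pre_ext (t := s1 + N * l) (t' := e) hPP (g4.trans f4.symm)
    have h4 : ∀ S : Finset ℕ, S ⊆ range e → pre S e = S := by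
      intro S hS
      ext p
      rw [mem_pre]
      constructor
      · exact fun h => h.1
      · exact fun h => ⟨h, mem_range.1 (hS h)⟩
    rwa [h4 P g1, h4 P' f1] at h3
  rw [h2]
  exact key N le_rfl

/-- two coordinates -/
lemma two_coord {S : Finset (Finset ℕ)} {s t e : ℕ} (hst : s ≤ t) (hte : t ≤ e)
    (hS : ∀ U ∈ S, U ⊆ Ico s e) {A B : Finset (Finset ℕ)} (hA : ∀ U ∈ S, pre U t ∈ A)
    (hB : ∀ U ∈ S, itv U t e ∈ B) : S.card ≤ A.card * B.card := by
  classical
  rw [← card_product]
  apply card_le_card_of_injOn (fun U => (pre U t, itv U t e))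
  · intro U hU
    exact mem_product.2 ⟨hA U hU, hB U hU⟩
  · intro U hU U' hU' h
    simp only [Prod.mk.injEq] at h
    have h1 := pre_ext h.1 h.2
    have h4 : ∀ S' : Finset ℕ, S' ⊆ Ico s e → pre S' e = S' := by
      intro S' hS'
      ext p
      rw [mem_pre]
      constructor
      · exact fun h => h.1
      · exact fun h => ⟨h, (mem_Ico.1 (hS' h)).2⟩
    rwa [h4 U (hS U hU), h4 U' (hS U' hU')] at h1

lemma pre_sub_Ico {U : Finset ℕ} {s t e : ℕ} (hU : U ⊆ Ico s e) : pre U t ⊆ Ico s t := by
  intro p hp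
  rw [mem_pre] at hp
  rw [mem_Ico]
  exact ⟨(mem_Ico.1 (hU hp.1)).1, hp.2⟩

lemma itv_sub_Ico {U : Finset ℕ} {t e : ℕ} : itv U t e ⊆ Ico t e := by
  intro p hp
  rw [mem_itv] at hp
  rw [mem_Ico]
  exact hp.2

/-- periodicity with a small period -/
def Pr (x : ℕ → ℕ) (h d : ℕ) (U : Finset ℕ) : Prop :=
  ∃ D, 0 < D ∧ D ≤ d ∧ PD (en x U) U.card h D

theorem per_count {x : ℕ → ℕ} {n h : ℕ} (hx : Seq x n h) {d l : ℕ}
    (hl : l = 2 * (d + 2) + 1) {q N s0 e : ℕ} (he : e = s0 + (8 * q + N * l)) (hen : e ≤ n)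
    (hq : h + d + 4 ≤ q) {S : Finset (Finset ℕ)}
    (hS : ∀ U ∈ S, U ⊆ Ico s0 e ∧ Pr x h d U) :
    S.card ≤ 2 * (10 ^ q * 2 ^ (4 * q + N * l)) + d * (2 ^ (8 * q) * (3 * 2 ^ (l - 2)) ^ N) := by
  classical
  set s1 := s0 + 4 * q with hs1
  set s2 := s1 + N * l with hs2
  have he2 : e = s2 + 4 * q := by omega
  set S1 := S.filter (fun U => (pre U s1).card ≤ q) with hS1
  set S2 := S.filter (fun U => (itv U s2 e).card ≤ q) with hS2
  set S3 := S.filter (fun U => q < (pre U s1).card ∧ q < (itv U s2 e).card) with hS3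
  have hcov : S ⊆ (S1 ∪ S2) ∪ S3 := by
    intro U hU
    simp only [hS1, hS2, hS3, mem_union, mem_filter]
    by_cases h1 : (pre U s1).card ≤ q
    · exact Or.inl (Or.inl ⟨hU, h1⟩)
    · by_cases h2 : (itv U s2 e).card ≤ q
      · exact Or.inl (Or.inr ⟨hU, h2⟩)
      · exact Or.inr ⟨hU, by omega, by omega⟩
  have hc1 : S1.card ≤ 10 ^ q * 2 ^ (4 * q + N * l) := by
    have h1 := two_coord (S := S1) (s := s0) (t := s1) (e := e) (by omega) (by omega)
      (fun U hU => (hS U (mem_filter.1 hU).1).1)
      (A := (Ico s0 s1).powerset.filter (fun Y => Y.card ≤ q)) (B := (Ico s1 e).powerset)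
      (fun U hU => by
        rw [mem_filter, mem_powerset]
        exact ⟨pre_sub_Ico (hS U (mem_filter.1 hU).1).1, (mem_filter.1 hU).2⟩)
      (fun U _ => mem_powerset.2 itv_sub_Ico)
    refine h1.trans (Nat.mul_le_mul ?_ ?_)
    · apply small_count
      rw [Nat.card_Ico]
      omega
    · rw [card_powerset, Nat.card_Ico]
      exact Nat.pow_le_pow_right (by norm_num) (by omega)
  have hc2 : S2.card ≤ 10 ^ q * 2 ^ (4 * q + N * l) := by
    have h1 := two_coord (S := S2) (s := s0) (t := s2) (e := e) (by omega) (by omega)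
      (fun U hU => (hS U (mem_filter.1 hU).1).1)
      (A := (Ico s0 s2).powerset) (B := (Ico s2 e).powerset.filter (fun Y => Y.card ≤ q))
      (fun U hU => mem_powerset.2 (pre_sub_Ico (hS U (mem_filter.1 hU).1).1))
      (fun U hU => by
        rw [mem_filter, mem_powerset]
        exact ⟨itv_sub_Ico, (mem_filter.1 hU).2⟩)
    rw [Nat.mul_comm] at h1
    refine h1.trans (Nat.mul_le_mul ?_ ?_)
    · apply small_count
      rw [Nat.card_Ico]
      omega
    · rw [card_powerset, Nat.card_Ico]
      exact Nat.pow_le_pow_right (by norm_num) (by omega)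
  have hc3 : S3.card ≤ d * (2 ^ (8 * q) * (3 * 2 ^ (l - 2)) ^ N) := by
    have hD : ∀ D ∈ Icc 1 d, (S3.filter (fun U => PD (en x U) U.card h D)).card ≤
        2 ^ (8 * q) * (3 * 2 ^ (l - 2)) ^ N := by
      intro D hD
      rw [mem_Icc] at hD
      have h1 : ((S3.filter (fun U => PD (en x U) U.card h D)).image
          (fun U => (pre U s1, itv U s2 e))).card ≤ 2 ^ (8 * q) := by
        have h2 : (S3.filter (fun U => PD (en x U) U.card h D)).image
          (fun U => (pre U s1, itv U s2 e)) ⊆ (Ico s0 s1).powerset ×ˢ (Ico s2 e).powerset := by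
          intro y hy
          rw [mem_image] at hy
          obtain ⟨U, hU, rfl⟩ := hy
          rw [mem_product, mem_powerset, mem_powerset]
          exact ⟨pre_sub_Ico (hS U (mem_filter.1 (mem_filter.1 hU).1).1).1, itv_sub_Ico⟩
        refine (card_le_card h2).trans ?_
        rw [card_product, card_powerset, card_powerset, Nat.card_Ico, Nat.card_Ico, ← pow_add]
        exact Nat.pow_le_pow_right (by norm_num) (by omega)
      have h3 := card_le_mul_card_image (f := fun U => (pre U s1, itv U s2 e))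
        (S3.filter (fun U => PD (en x U) U.card h D)) ((3 * 2 ^ (l - 2)) ^ N) (by
          rintro ⟨UL, UR⟩ hy
          rw [mem_image] at hy
          obtain ⟨U0, hU0, hUU⟩ := hy
          simp only [Prod.mk.injEq] at hUU
          have hU0' := mem_filter.1 (mem_filter.1 hU0).1
          refine per_fixed hx (D := D) (by omega) hl (by omega) (s1 := s1) (N := N) (e := e)
            (by omega) hen (UL := UL) (UR := UR) ?_ ?_ ?_
          · rw [← hUU.1]
            omega
          · rw [← hUU.2]
            omega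
          · intro P hP
            rw [mem_filter, mem_filter] at hP
            simp only [Prod.mk.injEq] at hP
            refine ⟨?_, hP.1.2, hP.2.1, hP.2.2⟩
            intro p hp
            have := (hS P (mem_filter.1 hP.1.1).1).1 hp
            rw [mem_Ico] at this
            exact mem_range.2 this.2)
      refine h3.trans ?_
      rw [Nat.mul_comm]
      exact Nat.mul_le_mul_right _ h1
    have hsub : S3 ⊆ (Icc 1 d).biUnion (fun D => S3.filter (fun U => PD (en x U) U.card h D)) := by
      intro U hU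
      obtain ⟨D, h1, h2, h3⟩ := (hS U (mem_filter.1 hU).1).2
      rw [mem_biUnion]
      exact ⟨D, mem_Icc.2 ⟨h1, h2⟩, mem_filter.2 ⟨hU, h3⟩⟩
    refine (card_le_card hsub).trans ((card_biUnion_le_card_mul _ _ _ hD).trans ?_)
    rw [Nat.card_Icc]
    simp
  have h5 := card_le_card hcov
  have h6 := card_union_le (S1 ∪ S2) S3
  have h7 := card_union_le S1 S2
  omega

end Pool.Agent.H430R3.LD
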