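import Pool.Agent.H430R3.LD.Mono

/-! Ranks of elements in finite sets of positions. -/

set_option autoImplicit false
set_option linter.unusedSectionVars false

namespace Pool.Agent.H430R3.LD

open Finset

/-- the `a`-th element -/
noncomputable def el (P : Finset ℕ) (a : ℕ) : ℕ := Nat.nth (· ∈ P) a

/-- the number of smaller elements -/
def ix (P : Finset ℕ) (p : ℕ) : ℕ := (P.filter (· < p)).card

lemma ix_eq_count (P : Finset ℕ) (p : ℕ) : ix P p = Nat.count (· ∈ P) p := by
  rw [Nat.count_eq_card_filter_range, ix]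
  congr 1
  ext a
  simp only [mem_filter, mem_range]
  tauto

lemma card_side {P : Finset ℕ} {a : ℕ} (ha : a < P.card) (hf : (Set.ofPred (· ∈ P)).Finite) :
    a < hf.toFinset.card := by
  have : hf.toFinset = P := by
    ext b
    simp [Set.ofPred]
  rw [this]
  exact ha

lemma el_mem {P : Finset ℕ} {a : ℕ} (ha : a < P.card) : el P a ∈ P :=
  Nat.nth_mem (p := (· ∈ P)) a (fun hf => card_side ha hf)

lemma ix_el {P : Finset ℕ} {a : ℕ} (ha : a < P.card) : ix P (el P a) = a := by
  rw [ix_eq_count]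
  exact Nat.count_nth (p := (· ∈ P)) (fun hf => card_side ha hf)

lemma el_ix {P : Finset ℕ} {p : ℕ} (hp : p ∈ P) : el P (ix P p) = p := by
  rw [ix_eq_count]
  exact Nat.nth_count (p := (· ∈ P)) hp

lemma el_lt {P : Finset ℕ} {a b : ℕ} (hab : a < b) (hb : b < P.card) : el P a < el P b :=
  Nat.nth_lt_nth' (p := (· ∈ P)) hab (fun hf => card_side hb hf)

lemma ix_mono {P : Finset ℕ} {p q : ℕ} (h : p ≤ q) : ix P p ≤ ix P q := by
  apply card_le_card
  intro a ha
  rw [mem_filter] at ha ⊢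
  exact ⟨ha.1, by omega⟩

lemma ix_lt {P : Finset ℕ} {p q : ℕ} (hp : p ∈ P) (h : p < q) : ix P p < ix P q := by
  apply card_lt_card
  rw [ssubset_iff_of_subset]
  · refine ⟨p, ?_, ?_⟩
    · rw [mem_filter]
      exact ⟨hp, h⟩
    · simp
  · intro a ha
    rw [mem_filter] at ha ⊢
    exact ⟨ha.1, by omega⟩

lemma ix_lt_card {P : Finset ℕ} {p : ℕ} (hp : p ∈ P) : ix P p < P.card := by
  apply card_lt_card
  rw [ssubset_iff_of_subset (filter_subset _ _)]
  exact ⟨p, hp, by simp⟩

lemma el_lt_of {P : Finset ℕ} {a p : ℕ} (h : a < ix P p) : el P a < p := by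
  rw [ix_eq_count] at h
  exact Nat.nth_lt_of_lt_count h

lemma le_el {P : Finset ℕ} {a p : ℕ} (ha : a < P.card) (h : ix P p ≤ a) : p ≤ el P a := by
  by_contra hcon
  push Not at hcon
  have := ix_lt (el_mem ha) hcon
  rw [ix_el ha] at this
  omega

/-- the rank of an element of a smaller set -/
lemma ix_split (P : Finset ℕ) {p q : ℕ} (h : p ≤ q) :
    ix P q = ix P p + (P.filter (fun a => p ≤ a ∧ a < q)).card := by
  rw [ix, ix, ← card_union_of_disjoint]
  · congr 1
    ext a
    simp only [mem_filter, mem_union]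
    constructor
    · rintro ⟨h1, h2⟩
      by_cases h3 : a < p
      · exact Or.inl ⟨h1, h3⟩
      · exact Or.inr ⟨h1, by omega, h2⟩
    · rintro (⟨h1, h2⟩ | ⟨h1, h2, h3⟩)
      · exact ⟨h1, by omega⟩
      · exact ⟨h1, h3⟩
  · rw [disjoint_left]
    intro a ha hb
    simp only [mem_filter] at ha hb
    omega

/-- increasing enumeration of positions -/
lemma en_inc {x : ℕ → ℕ} {n : ℕ} (hx : ∀ i j, i < j → j < n → x i < x j) {P : Finset ℕ}
    (hP : P ⊆ range n) : Inc (en x P) P.card := by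
  intro r hr
  have h1 := el_lt (P := P) (Nat.lt_succ_self r) hr
  have h2 := el_mem (P := P) hr
  exact hx _ _ h1 (mem_range.1 (hP h2))

lemma en_bd {x : ℕ → ℕ} {n B : ℕ} (hx : ∀ i < n, x i < B) {P : Finset ℕ}
    (hP : P ⊆ range n) : ∀ r < P.card, en x P r < B := fun r hr =>
  hx _ (mem_range.1 (hP (el_mem hr)))

/-- the interval `[a, b)` of `P` -/
def itv (P : Finset ℕ) (a b : ℕ) : Finset ℕ := P.filter (fun p => a ≤ p ∧ p < b)

lemma mem_itv {P : Finset ℕ} {a b p : ℕ} : p ∈ itv P a b ↔ p ∈ P ∧ a ≤ p ∧ p < b := by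
  simp [itv]

/-- an interval of `P` is an interval of ranks -/
lemma el_itv {P : Finset ℕ} {a b r : ℕ} (hr : r < (itv P a b).card) :
    el P (ix P a + r) = el (itv P a b) r := by
  have h1 := el_mem hr
  rw [mem_itv] at h1
  have h2 := ix_split P h1.2.1
  have h3 : (P.filter (fun p => a ≤ p ∧ p < el (itv P a b) r)).card = r := by
    have h4 := ix_el hr
    rw [ix] at h4
    rw [← h4]
    congr 1
    rw [h4]
    ext p
    simp only [mem_filter, mem_itv]
    constructor
    · rintro ⟨g1, g2, g3⟩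
      exact ⟨⟨g1, g2, by omega⟩, g3⟩
    · rintro ⟨⟨g1, g2, g3⟩, g4⟩
      exact ⟨g1, g2, g4⟩
  rw [h3] at h2
  rw [← h2]
  exact el_ix h1.1

lemma w_shift (u : ℕ → ℕ) (a j r : ℕ) : w (fun r => u (a + r)) j r = w u j (a + r) := by
  induction j generalizing r with
  | zero => rfl
  | succ j ih =>
    simp only [w]
    rw [ih, ih]
    rfl

lemma sg_shift (u : ℕ → ℕ) (a j r : ℕ) : sg (fun r => u (a + r)) j r = sg u j (a + r) := by
  simp only [sg]
  rw [w_shift, w_shift]
  rfl

/-- the type of an interval -/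
lemma sg_itv (x : ℕ → ℕ) {P : Finset ℕ} {a b j r : ℕ} (hr : r + j + 1 < (itv P a b).card) :
    sg (en x (itv P a b)) j r = sg (en x P) j (ix P a + r) := by
  rw [← sg_shift]
  apply sg_congr (s := (itv P a b).card) _ j hr
  intro t ht
  simp only [en]
  have := el_itv (P := P) (a := a) (b := b) ht
  simp only [el] at this
  rw [this]

end Pool.Agent.H430R3.LD
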