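import Mathlib

/-! Numbers for TaskB. -/

set_option autoImplicit false

namespace Pool.Agent.H430R3.LD

/-- the bound for the number of contents of one block -/
def BlockA (a q N : ℕ) : ℕ :=
  2 ^ (8 * q + N * (4 * a ^ 2 + 5)) * Nat.centralBinom (a ^ 2) +
    (2 * (10 ^ q * 2 ^ (4 * q + N * (4 * a ^ 2 + 5))) +
      2 * a ^ 2 * (2 ^ (8 * q) * (3 * 2 ^ (4 * a ^ 2 + 3)) ^ N)) * 2 ^ (2 * a ^ 2)

/-- Task BN: the numbers. -/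
def TaskBN : Prop := ∃ M m : ℕ, 0 < M ∧ ∃ k₀ : ℕ, ∀ k ≥ k₀, ∀ h : ℕ, M * h ≤ k →
  ∃ a q N : ℕ, h + 2 * a ^ 2 + 4 ≤ q ∧ m * (2 * a ^ 2 + (8 * q + N * (4 * a ^ 2 + 5))) ≤ 2 * k ∧
    (BlockA a q N : ℝ) ^ m * 2 ^ (2 * k - m * (2 * a ^ 2 + (8 * q + N * (4 * a ^ 2 + 5)))) *
      (k : ℝ) ^ 5 ≤ (2 * k).choose k

end Pool.Agent.H430R3.LD
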