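import Pool.Agent.H430R3.LD.Per
import Pool.Agent.H430R3.LD.Stmts
import Pool.Agent.H430R3.LD.StmtsB

/-! Anticoncentration: the product over the blocks. -/

set_option autoImplicit false
set_option linter.unusedSectionVars false

namespace Pool.Agent.H430R3.LD

open Finset

lemma ix_pre {P : Finset ℕ} (t : ℕ) : ix P t = (pre P t).card := rfl

/-- sets with the same part before `t`, the same interval, different numbers in the zone -/
lemma zone_per {x : ℕ → ℕ} {h d : ℕ} {c : ℕ → ℕ → Bool} {P P' : Finset ℕ}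
    (hP : Ty x h P c) (hP' : Ty x h P' c) {t e : ℕ} (hte : t + d ≤ e) (hpre : pre P t = pre P' t)
    (hU : itv P (t + d) e = itv P' (t + d) e)
    (hlt : (itv P t (t + d)).card < (itv P' t (t + d)).card) : Pr x h d (itv P (t + d) e) := by
  classical
  have h1 := ix_split' P (Nat.le_add_right t d)
  have h1' := ix_split' P' (Nat.le_add_right t d)
  have h2 : ix P t = ix P' t := by rw [ix_pre, ix_pre, hpre]
  have hd : (itv P' t (t + d)).card ≤ d := by
    refine (card_le_card (itv_sub_Ico (U := P') (t := t) (e := t + d))).trans ?_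
    rw [Nat.card_Ico]
    omega
  refine ⟨(itv P' t (t + d)).card - (itv P t (t + d)).card, by omega, by omega, ?_⟩
  set D := (itv P' t (t + d)).card - (itv P t (t + d)).card with hD
  have hc : ix P (t + d) + (itv P (t + d) e).card ≤ P.card := by
    rw [← ix_split' P hte]
    exact card_filter_le _ _
  have hc' : ix P' (t + d) + (itv P' (t + d) e).card ≤ P'.card := by
    rw [← ix_split' P' hte]
    exact card_filter_le _ _
  intro j hj r hr
  rw [sg_itv x hr]
  have e1 : sg (en x (itv P (t + d) e)) j r = sg (en x P') j (ix P' (t + d) + r) := by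
    rw [hU]
    apply sg_itv
    rw [← hU]
    omega
  rw [e1]
  have hcc : (itv P (t + d) e).card = (itv P' (t + d) e).card := by rw [hU]
  rw [hP j hj _ (by omega), hP' j hj _ (by omega)]
  congr 1
  omega

/-- the contents of one block -/
lemma block_total {x : ℕ → ℕ} {n h : ℕ} (hx : Seq x n h) {c : ℕ → ℕ → Bool}
    {F : Finset (Finset ℕ)} (hF : ∀ P ∈ F, P ⊆ range n ∧ Ty x h P c) {a q N t : ℕ}
    (hq : h + 2 * a ^ 2 + 4 ≤ q)
    (ht : t + (2 * a ^ 2 + (8 * q + N * (4 * a ^ 2 + 5))) ≤ n) (Y : Finset ℕ)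
    (QQ : Finset (Finset ℕ))
    (hQ : ∀ Q ∈ QQ, ∃ P ∈ F, pre P t = Y ∧
      itv P t (t + (2 * a ^ 2 + (8 * q + N * (4 * a ^ 2 + 5)))) = Q) :
    QQ.card ≤ BlockA a q N := by
  classical
  set d := 2 * a ^ 2 with hd
  set l := 4 * a ^ 2 + 5 with hl
  have hl' : l = 2 * (d + 2) + 1 := by omega
  have hl2 : l - 2 = 4 * a ^ 2 + 3 := by omega
  set s0 := t + d with hs0
  set e := t + (d + (8 * q + N * l)) with he
  have he' : e = s0 + (8 * q + N * l) := by omega
  -- the interval of a content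
  have hUU : ∀ Q ∈ QQ, ∃ P ∈ F, pre P t = Y ∧ itv P t e = Q ∧ itv P s0 e = itv Q s0 e ∧
      itv P t s0 = pre Q s0 := by
    intro Q hQQ
    obtain ⟨P, hP, h1, h2⟩ := hQ Q hQQ
    refine ⟨P, hP, h1, h2, ?_, ?_⟩
    · rw [← h2]
      ext p
      simp only [mem_itv]
      constructor
      · rintro ⟨g1, g2, g3⟩
        exact ⟨⟨g1, by omega, g3⟩, g2, g3⟩
      · rintro ⟨⟨g1, g2, g3⟩, g4, g5⟩
        exact ⟨g1, g4, g5⟩
    · rw [← h2]
      ext p
      simp only [mem_itv, mem_pre]
      constructor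
      · rintro ⟨g1, g2, g3⟩
        exact ⟨⟨g1, g2, by omega⟩, g3⟩
      · rintro ⟨⟨g1, g2, g3⟩, g4⟩
        exact ⟨g1, g2, g4⟩
  have hQI : ∀ Q ∈ QQ, Q ⊆ Ico t e := by
    intro Q hQQ
    obtain ⟨P, hP, h1, h2⟩ := hQ Q hQQ
    rw [← h2]
    exact itv_sub_Ico
  set Q1 := QQ.filter (fun Q => Pr x h d (itv Q s0 e)) with hQ1
  set Q2 := QQ.filter (fun Q => ¬ Pr x h d (itv Q s0 e)) with hQ2
  have hsum : QQ.card = Q1.card + Q2.card :=
    (card_filter_add_card_filter_not (s := QQ) (fun Q => Pr x h d (itv Q s0 e))).symm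
  have hc1 : Q1.card ≤ (2 * (10 ^ q * 2 ^ (4 * q + N * l)) +
      d * (2 ^ (8 * q) * (3 * 2 ^ (l - 2)) ^ N)) * 2 ^ d := by
    have h1 := two_coord (S := Q1) (s := t) (t := s0) (e := e) (by omega) (by omega)
      (fun Q hQQ => hQI Q (mem_filter.1 hQQ).1) (A := (Ico t s0).powerset)
      (B := Q1.image (fun Q => itv Q s0 e))
      (fun Q hQQ => mem_powerset.2 (pre_sub_Ico (hQI Q (mem_filter.1 hQQ).1)))
      (fun Q hQQ => mem_image_of_mem _ hQQ)
    have h2 := per_count hx (d := d) hl' (q := q) (N := N) (s0 := s0) (e := e) he' ht hq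
      (S := Q1.image (fun Q => itv Q s0 e)) (by
        intro U hU
        rw [mem_image] at hU
        obtain ⟨Q, hQQ, rfl⟩ := hU
        exact ⟨itv_sub_Ico, (mem_filter.1 hQQ).2⟩)
    rw [card_powerset, Nat.card_Ico] at h1
    have h3 : s0 - t = d := by omega
    rw [h3, Nat.mul_comm] at h1
    exact h1.trans (Nat.mul_le_mul_right _ h2)
  have hc2 : Q2.card ≤ 2 ^ (8 * q + N * l) * Nat.centralBinom (a ^ 2) := by
    have h1 := card_le_mul_card_image (f := fun Q => itv Q s0 e) Q2 (Nat.centralBinom (a ^ 2)) (by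
      intro U hU
      rw [mem_image] at hU
      obtain ⟨Q0, hQ0, hQ0U⟩ := hU
      obtain ⟨P0, hP0, hP0Y, hP0Q, hP0U, hP0Z⟩ := hUU Q0 (mem_filter.1 hQ0).1
      have hsz : ∀ Q ∈ Q2.filter (fun Q => itv Q s0 e = U), (pre Q s0).card = (pre Q0 s0).card := by
        intro Q hQQ
        rw [mem_filter] at hQQ
        obtain ⟨hQm, hQU⟩ := hQQ
        obtain ⟨P, hP, hPY, hPQ, hPU, hPZ⟩ := hUU Q (mem_filter.1 hQm).1
        rw [← hPZ, ← hP0Z]
        by_contra hne
        have hnp : ¬ Pr x h d (itv P0 s0 e) := by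
          rw [hP0U]
          exact (mem_filter.1 hQ0).2
        have hnp' : ¬ Pr x h d (itv P s0 e) := by
          rw [hPU]
          exact (mem_filter.1 hQm).2
        have hpre : pre P t = pre P0 t := hPY.trans hP0Y.symm
        have hitv : itv P s0 e = itv P0 s0 e := by rw [hPU, hP0U, hQU, hQ0U]
        rcases lt_or_gt_of_ne hne with hlt | hlt
        · exact hnp' (zone_per (hF P hP).2 (hF P0 hP0).2 (by omega) hpre hitv hlt)
        · exact hnp (zone_per (hF P0 hP0).2 (hF P hP).2 (by omega) hpre.symm hitv.symm hlt)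
      have h2 := two_coord (S := Q2.filter (fun Q => itv Q s0 e = U)) (s := t) (t := s0) (e := e)
        (by omega) (by omega) (fun Q hQQ => hQI Q (mem_filter.1 (mem_filter.1 hQQ).1).1)
        (A := (Ico t s0).powersetCard (pre Q0 s0).card) (B := {U})
        (fun Q hQQ => by
          rw [mem_powersetCard]
          exact ⟨pre_sub_Ico (hQI Q (mem_filter.1 (mem_filter.1 hQQ).1).1), hsz Q hQQ⟩)
        (fun Q hQQ => by
          rw [mem_singleton]
          exact (mem_filter.1 hQQ).2)
      rw [card_powersetCard, card_singleton, Nat.mul_one, Nat.card_Ico] at h2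
      have h3 : s0 - t = 2 * a ^ 2 := by omega
      rw [h3] at h2
      exact h2.trans (Nat.choose_le_centralBinom _ _))
    have h2 : (Q2.image (fun Q => itv Q s0 e)).card ≤ 2 ^ (8 * q + N * l) := by
      have h3 : Q2.image (fun Q => itv Q s0 e) ⊆ (Ico s0 e).powerset := by
        intro U hU
        rw [mem_image] at hU
        obtain ⟨Q, _, rfl⟩ := hU
        exact mem_powerset.2 itv_sub_Ico
      refine (card_le_card h3).trans ?_
      rw [card_powerset, Nat.card_Ico]
      exact Nat.pow_le_pow_right (by norm_num) (by omega)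
    refine h1.trans ?_
    rw [Nat.mul_comm]
    exact Nat.mul_le_mul_right _ h2
  rw [BlockA, ← hl2, ← hl, ← hd]
  omega

/-- the product over the blocks -/
theorem total {x : ℕ → ℕ} {n h : ℕ} (hx : Seq x n h) {c : ℕ → ℕ → Bool}
    {F : Finset (Finset ℕ)} (hF : ∀ P ∈ F, P ⊆ range n ∧ Ty x h P c) {a q N m : ℕ}
    (hq : h + 2 * a ^ 2 + 4 ≤ q)
    (hm : m * (2 * a ^ 2 + (8 * q + N * (4 * a ^ 2 + 5))) ≤ n) :
    F.card ≤ BlockA a q N ^ m * 2 ^ (n - m * (2 * a ^ 2 + (8 * q + N * (4 * a ^ 2 + 5)))) := by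
  classical
  set β := 2 * a ^ 2 + (8 * q + N * (4 * a ^ 2 + 5)) with hβ
  have key : ∀ i ≤ m, (F.image (fun P => pre P (i * β))).card ≤ BlockA a q N ^ i := by
    intro i
    induction i with
    | zero =>
      intro _
      rw [pow_zero]
      have : F.image (fun P => pre P (0 * β)) ⊆ {∅} := by
        intro Y hY
        rw [mem_image] at hY
        obtain ⟨P, _, rfl⟩ := hY
        rw [mem_singleton, Nat.zero_mul]
        ext p
        simp [mem_pre]
      exact (card_le_card this).trans (by simp)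
    | succ i ih =>
      intro hi
      have hil : (i + 1) * β ≤ m * β := Nat.mul_le_mul_right β hi
      have e1 : (i + 1) * β = i * β + β := by ring
      have h1 := seq_step F (t := i * β) (t' := i * β + β) (A := BlockA a q N) (by omega) (by
        intro Y QQ hQ
        exact block_total hx hF hq (by omega) Y QQ hQ)
      rw [e1, pow_succ, Nat.mul_comm (BlockA a q N ^ i)]
      exact h1.trans (Nat.mul_le_mul_left _ (ih (by omega)))
  have h1 := two_coord (S := F) (s := 0) (t := m * β) (e := n) (Nat.zero_le _) hm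
    (fun P hP => by
      intro p hp
      rw [mem_Ico]
      exact ⟨Nat.zero_le _, mem_range.1 ((hF P hP).1 hp)⟩)
    (A := F.image (fun P => pre P (m * β))) (B := (Ico (m * β) n).powerset)
    (fun P hP => mem_image_of_mem _ hP) (fun P _ => mem_powerset.2 itv_sub_Ico)
  rw [card_powerset, Nat.card_Ico] at h1
  exact h1.trans (Nat.mul_le_mul_right _ (key m le_rfl))

theorem taskB_of (hBN : TaskBN) : TaskB := by
  obtain ⟨M, m, hM, k₀, hk⟩ := hBN
  refine ⟨M, hM, k₀, ?_⟩
  intro k hkk h hh x hx c F hF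
  obtain ⟨a, q, N, hq, hm, hnum⟩ := hk k hkk h hh
  have h1 := total hx (fun P hP => ⟨(hF P hP).1, (hF P hP).2.2⟩) hq hm
  have h2 : (F.card : ℝ) ≤ (BlockA a q N : ℝ) ^ m *
      2 ^ (2 * k - m * (2 * a ^ 2 + (8 * q + N * (4 * a ^ 2 + 5)))) := by
    exact_mod_cast h1
  refine le_trans ?_ hnum
  exact mul_le_mul_of_nonneg_right h2 (by positivity)

end Pool.Agent.H430R3.LD
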